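import Pool.Agent.KS6_1.RF.FischerExt

set_option autoImplicit false

namespace Pool.Agent.Results.MP_36bee3_al.ContinuumMany

open Subgroup
open Pool.Agent.Results.MP_36bee3_al.NotR0Closed (IsFischerClass)
open Pool.Agent.KS6_1.FischerExt

/-- All prime divisors of the order of every member of `X` lie in `ρ`. -/
def IsPrimeBounded (ρ : Set ℕ) (X : (G : Type) → [Group G] → Prop) : Prop :=
  ∀ (G : Type) [Group G], X G → ∀ p : ℕ, p.Prime → p ∣ Nat.card G → p ∈ ρ

/-- `NormalExt π X`: the finite soluble groups `G` that have a normal `π`-subgroup `N` (all prime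
divisors of the order of `N` lie in `π`) such that `G / N` belongs to `X`. -/
def NormalExt (π : Set ℕ) (X : (G : Type) → [Group G] → Prop) (G : Type) [Group G] : Prop :=
  Finite G ∧ Group.IsSolvable G ∧ ∃ N : Subgroup G, ∃ _ : N.Normal,
    (∀ p : ℕ, p.Prime → p ∣ Nat.card N → p ∈ π) ∧ X (G ⧸ N)

theorem cyclic_mem {ρ π : Set ℕ} {X : (G : Type) → [Group G] → Prop} (hX : IsFischerClass X)
    (hρ : IsPrimeBounded ρ X) (p : ℕ) (hp : p.Prime) (hpρ : p ∉ ρ) :
    NormalExt π X (Multiplicative (ZMod p)) ↔ p ∈ π := by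
  have : NeZero p := ⟨hp.ne_zero⟩
  have hcard : Nat.card (Multiplicative (ZMod p)) = p := by
    rw [Nat.card_congr (Multiplicative.toAdd : Multiplicative (ZMod p) ≃ ZMod p), Nat.card_zmod]
  constructor
  · rintro ⟨-, -, N, hN, h1, h2⟩
    have h3 : p ∣ Nat.card (Multiplicative (ZMod p) ⧸ N) * Nat.card N := by
      rw [← Subgroup.card_eq_card_quotient_mul_card_subgroup, hcard]
    rcases (Nat.Prime.dvd_mul hp).1 h3 with h | h
    · exact absurd (hρ _ h2 p hp h) hpρ
    · exact h1 p hp h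
  · intro h
    refine ⟨inferInstance, inferInstance, ⊤, inferInstance, ?_, ?_⟩
    · intro r hr hd
      rw [Subgroup.card_top, hcard] at hd
      rwa [(Nat.prime_dvd_prime_iff_eq hr hp).1 hd]
    · have : Subsingleton (Multiplicative (ZMod p) ⧸ (⊤ : Subgroup (Multiplicative (ZMod p)))) :=
        QuotientGroup.subsingleton_quotient_top
      exact hX.isClass.trivial _

/-- (1) Let `X` be a Fischer class of finite soluble `ρ`-groups and `π` a set of primes disjoint
from `ρ`. Then the groups with a normal `π`-subgroup and quotient in `X` form a Fischer class.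
(2) For all distinct primes `q, r ≥ 5` there are a finite soluble group `G` with normal subgroups
`M₁`, `M₂` of orders `q ^ 4`, `r ^ 4` and `M₁ ∩ M₂ = 1`, `G / M₁M₂ ≅ S₄`, and an injective family of
Fischer classes, indexed by the `2 ^ ℵ₀` subsets of `ℕ`, all of which contain `G / M₁` and `G / M₂`
but not `G`. So continuum many Fischer classes are not closed under subdirect products. -/
theorem result :
    (∀ (ρ π : Set ℕ) (X : (G : Type) → [Group G] → Prop), IsFischerClass X →
      IsPrimeBounded ρ X → Disjoint ρ π → IsFischerClass (NormalExt π X)) ∧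
    (∀ q r : ℕ, q.Prime → r.Prime → 5 ≤ q → 5 ≤ r → q ≠ r →
      ∃ (G : Type) (_ : Group G) (M₁ M₂ : Subgroup G) (_ : M₁.Normal) (_ : M₂.Normal),
        Finite G ∧ Group.IsSolvable G ∧ M₁ ⊓ M₂ = ⊥ ∧ Nat.card M₁ = q ^ 4 ∧
        Nat.card M₂ = r ^ 4 ∧ Nonempty (G ⧸ (M₁ ⊔ M₂) ≃* Equiv.Perm (Fin 4)) ∧
        ∃ Y : Set ℕ → ((H : Type) → [Group H] → Prop), Function.Injective Y ∧
          ∀ S : Set ℕ, IsFischerClass (Y S) ∧ Y S (G ⧸ M₁) ∧ Y S (G ⧸ M₂) ∧ ¬ Y S G) := by
  refine ⟨fun ρ π X hX hρ hd => ext_fischer hX (fun G _ h => hρ G h) hd, ?_⟩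
  intro q r hq hr hq5 hr5 hqr
  obtain ⟨X, hX, hb, G, _, M₁, M₂, hM₁, hM₂, hfin, hsol, hM, c1, c2, hS4, x1, x2, hnot⟩ :=
    Pool.Agent.Results.MP_36bee3_al.SharpAmalgam.result.1 q r hq hr hq5 hr5 hqr
  set ρ : Set ℕ := {2, 3, q, r} with hρdef
  have hρ : IsPrimeBounded ρ X := fun G _ h p hp hd => by
    have := (hb G h).2 p hp hd
    simpa [ρ] using this
  have hinf : ({p : ℕ | p.Prime} \ ρ).Infinite :=
    Nat.infinite_setOfPred_prime.sdiff (by simp [ρ])
  let e : ℕ ↪ ({p : ℕ | p.Prime} \ ρ : Set ℕ) := hinf.natEmbedding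
  have hdis : ∀ S : Set ℕ, Disjoint ρ ((fun n => (e n : ℕ)) '' S) := by
    intro S
    rw [Set.disjoint_left]
    rintro p hp ⟨n, -, rfl⟩
    exact (e n).2.2 hp
  refine ⟨G, inferInstance, M₁, M₂, hM₁, hM₂, hfin, hsol, hM, c1, c2, hS4,
    fun S => NormalExt ((fun n => (e n : ℕ)) '' S) X, ?_, ?_⟩
  · intro S T hST
    have key : ∀ (S : Set ℕ) (n : ℕ), NormalExt ((fun n => (e n : ℕ)) '' S) X
        (Multiplicative (ZMod (e n : ℕ))) ↔ n ∈ S := by
      intro S n
      rw [cyclic_mem hX hρ _ (e n).2.1 (e n).2.2]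
      constructor
      · rintro ⟨m, hm, h⟩
        have : m = n := e.injective (Subtype.ext h)
        rwa [← this]
      · intro h
        exact ⟨n, h, rfl⟩
    ext n
    rw [← key S n, ← key T n]
    have h2 := congrFun (congrFun hST (Multiplicative (ZMod (e n : ℕ)))) inferInstance
    simp only at h2
    rw [h2]
  · intro S
    have hbot : ∀ (H : Type) [Group H], X H → NormalExt ((fun n => (e n : ℕ)) '' S) X H := by
      intro H _ h
      refine ⟨hX.isClass.finite H h, hX.isClass.soluble H h, ⊥, inferInstance, ?_, ?_⟩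
      · intro p hp hd
        rw [Subgroup.card_bot] at hd
        exact absurd (Nat.dvd_one.1 hd) hp.one_lt.ne'
      · exact hX.isClass.iso _ _ QuotientGroup.quotientBot.symm h
    refine ⟨ext_fischer hX (fun G _ h => hρ G h) (hdis S), hbot _ x1, hbot _ x2, ?_⟩
    rintro ⟨-, -, N, hN, h1, h2⟩
    have hG : ∀ p : ℕ, p.Prime → p ∣ Nat.card G → p ∈ ρ := by
      intro p hp hd
      rw [Subgroup.card_eq_card_quotient_mul_card_subgroup M₁, c1] at hd
      rcases (Nat.Prime.dvd_mul hp).1 hd with h | h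
      · exact hρ _ x1 p hp h
      · have := (Nat.prime_dvd_prime_iff_eq hp hq).1 (hp.dvd_of_dvd_pow h)
        simp [ρ, this]
    have hN1 : N = ⊥ := by
      have hc : Nat.card N = 1 := by
        by_contra hne
        obtain ⟨p, hp, hpd⟩ := Nat.exists_prime_and_dvd hne
        exact Set.disjoint_left.1 (hdis S)
          (hG p hp (hpd.trans (Subgroup.card_subgroup_dvd_card N))) (h1 p hp hpd)
      exact Subgroup.card_eq_one.1 hc
    subst hN1
    exact hnot (hX.isClass.iso _ _ QuotientGroup.quotientBot h2)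

end Pool.Agent.Results.MP_36bee3_al.ContinuumMany
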